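import Mathlib
import Pool.Agent.Y16.TF.Str

/-!
# Thomas-Fermi theory: the energy decreases under all stretchings of the molecule

A stretching is a composition of isometries and of maps `x ↦ x + φ(⟨n, x⟩) n`, `n` a unit vector and
`φ` nondecreasing. All linear maps which do not decrease the length of any vector are stretchings.
The deformations (i) and (ii) of the problem are special cases. The proof uses the contraction
theorem of the starting library (helper71, helper557).
-/

set_option autoImplicit false

open MeasureTheory Set Filter Topology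
open scoped RealInnerProductSpace

namespace Pool.Agent.Results.MP_0ec64f_mp.Stretchings

/-- Physical space. -/
abbrev E3 := EuclideanSpace ℝ (Fin 3)

/-- Admissible densities: measurable, nonnegative, integrable, with integrable `5/3`-power. -/
def Adm (ρ : E3 → ℝ) : Prop :=
  Measurable ρ ∧ (∀ x, 0 ≤ ρ x) ∧ Integrable ρ ∧ Integrable (fun x => ρ x ^ (5/3 : ℝ))

/-- The Thomas-Fermi functional `ξ(ρ)` for nuclear charges `z` at positions `R`. -/
noncomputable def xi {k : ℕ} (z : Fin k → ℝ) (R : Fin k → E3) (ρ : E3 → ℝ) : ℝ :=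
  3/5 * (∫ x, ρ x ^ (5/3 : ℝ)) - (∫ x, (∑ j, z j / ‖x - R j‖) * ρ x)
    + 1/2 * (∫ x, ∫ y, ρ x * ρ y / ‖x - y‖)
    + ∑ i, ∑ j ∈ Finset.Ioi i, z i * z j / ‖R i - R j‖

/-- The values of `ξ` on admissible densities of mass `lam`. -/
def energies {k : ℕ} (z : Fin k → ℝ) (R : Fin k → E3) (lam : ℝ) : Set ℝ :=
  {E | ∃ ρ, Adm ρ ∧ ∫ x, ρ x = lam ∧ xi z R ρ = E}

/-- The Thomas-Fermi energy `e(lam)` of the configuration `R` with charges `z`. -/
noncomputable def e {k : ℕ} (z : Fin k → ℝ) (R : Fin k → E3) (lam : ℝ) : ℝ :=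
  sInf (energies z R lam)

/-- One step: `R'` is the image of `R` under a linear isometry, or under a map
`x ↦ x + φ(⟨n, x⟩) n` with a unit vector `n` and a nondecreasing `φ`. -/
def Step {k : ℕ} (R R' : Fin k → E3) : Prop :=
  (∃ A : E3 ≃ₗᵢ[ℝ] E3, ∀ i, R' i = A (R i)) ∨
    ∃ (n : E3) (φ : ℝ → ℝ), ‖n‖ = 1 ∧ Monotone φ ∧ ∀ i, R' i = R i + φ (inner ℝ n (R i)) • n

/-- `R'` arises from `R` by finitely many steps. -/
def Stretched {k : ℕ} (R R' : Fin k → E3) : Prop := Relation.ReflTransGen Step R R'

/-- A stretching family of configurations with parameters in `I`: distinct positions, and the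
configuration `R m` arises from `R l` by finitely many steps for all `l ≤ m` in `I`. -/
def Family {k : ℕ} (I : Set ℝ) (R : ℝ → Fin k → E3) : Prop :=
  (∀ l ∈ I, Function.Injective (R l)) ∧ ∀ l ∈ I, ∀ m ∈ I, l ≤ m → Stretched (R l) (R m)

/-- Deformation (i): one-direction dilation `(x¹, x², x³) ↦ (l x¹, x², x³)`. -/
def dil (l : ℝ) (x : E3) : E3 := WithLp.toLp 2 ![l * x 0, x 1, x 2]

open Classical in
/-- Deformation (ii): separation by `l` from the plane `⟨n, x⟩ = c` with unit normal `n`. -/
noncomputable def sep (n : E3) (c l : ℝ) (x : E3) : E3 :=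
  if c < inner ℝ n x then x + l • n else x - l • n

lemma dil_step {k : ℕ} (R : Fin k → E3) {l m : ℝ} (hl : 0 < l) (hlm : l ≤ m) :
    Step (fun i => dil l (R i)) (fun i => dil m (R i)) := by
  refine Or.inr ⟨EuclideanSpace.single 0 1, fun t => (m / l - 1) * t, ?_, ?_, ?_⟩
  · simp
  · have : 0 ≤ m / l - 1 := by rw [sub_nonneg, one_le_div hl]; exact hlm
    exact fun _ _ h => mul_le_mul_of_nonneg_left h this
  · intro i
    have h0 : (inner ℝ (EuclideanSpace.single (0 : Fin 3) (1 : ℝ)) (dil l (R i)) : ℝ) =
        l * R i 0 := by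
      rw [EuclideanSpace.inner_single_left]
      simp [dil]
    ext b
    beta_reduce
    rw [h0]
    fin_cases b
    · simp [dil]
      field_simp
      ring
    · simp [dil]
    · simp [dil]

lemma sep_step {k : ℕ} (n : E3) (hn : ‖n‖ = 1) (c : ℝ) (R : Fin k → E3)
    (hc : ∀ i, inner ℝ n (R i) ≠ c) {l m : ℝ} (hl : 0 ≤ l) (hlm : l ≤ m) :
    Step (fun i => sep n c l (R i)) (fun i => sep n c m (R i)) := by
  classical
  have hnn : (inner ℝ n n : ℝ) = 1 := by rw [real_inner_self_eq_norm_sq, hn]; norm_num
  refine Or.inr ⟨n, fun t => if c < t then m - l else -(m - l), hn, ?_, ?_⟩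
  · intro s t hst
    have h0 : 0 ≤ m - l := by linarith
    beta_reduce
    split_ifs with h1 h2 h2
    · exact le_rfl
    · exact absurd (lt_of_lt_of_le h1 hst) h2
    · linarith
    · exact le_rfl
  · intro i
    beta_reduce
    unfold sep
    by_cases hi : c < inner ℝ n (R i)
    · have h1 : (inner ℝ n (R i + l • n) : ℝ) = inner ℝ n (R i) + l := by
        rw [inner_add_right, inner_smul_right, hnn, mul_one]
      rw [if_pos hi, if_pos hi, h1, if_pos (by linarith)]
      module
    · have hi' : (inner ℝ n (R i) : ℝ) < c := lt_of_le_of_ne (not_lt.1 hi) (hc i)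
      have h1 : (inner ℝ n (R i - l • n) : ℝ) = inner ℝ n (R i) - l := by
        rw [inner_sub_right, inner_smul_right, hnn, mul_one]
      rw [if_neg hi, if_neg hi, h1, if_neg (by linarith)]
      module

/-- **Main theorem.** Let `R` be a stretching family of configurations with parameters in `I`. For
all charges `z ≥ 0` and every `lam ≥ 0` the infimum defining `e` is over a nonempty set bounded
below, the energy is nonincreasing along the family, and the pressure `P = -∂e/∂l` is nonnegative
wherever the derivative (within `I`) exists. Stretching families are: the dilations (i) for `l > 0`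
(question Q1); the separations (ii) from a plane without nuclei for `l ≥ 0` (question Q2); and all
linear deformations `T l`, `T l` injective, for which `T m` is longer than `T l` on every vector
for `l ≤ m`, in particular independent dilations in all directions. -/
theorem result {k : ℕ} (z : Fin k → ℝ) (hz : ∀ i, 0 ≤ z i) (lam : ℝ) (hlam : 0 ≤ lam) :
    (∀ (I : Set ℝ) (R : ℝ → Fin k → E3), Family I R →
      (∀ l ∈ I, (energies z (R l) lam).Nonempty ∧ BddBelow (energies z (R l) lam)) ∧
      AntitoneOn (fun l => e z (R l) lam) I ∧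
      ∀ l ∈ I, AccPt l (𝓟 I) → ∀ d : ℝ, HasDerivWithinAt (fun l => e z (R l) lam) d I l →
        0 ≤ -d) ∧
    (∀ R : Fin k → E3, Function.Injective R →
      Family (Ioi 0) (fun l i => dil l (R i)) ∧
      (∀ (n : E3) (c : ℝ), ‖n‖ = 1 → (∀ i, inner ℝ n (R i) ≠ c) →
        Family (Ici 0) (fun l i => sep n c l (R i))) ∧
      ∀ (I : Set ℝ) (T : ℝ → E3 →ₗ[ℝ] E3), (∀ l ∈ I, Function.Injective (T l)) →
        (∀ l ∈ I, ∀ m ∈ I, l ≤ m → ∀ x, ‖T l x‖ ≤ ‖T m x‖) →
        Family I (fun l i => T l (R i))) := by
  refine ⟨?_, ?_⟩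
  · intro I R hF
    have hanti : AntitoneOn (fun l => e z (R l) lam) I := by
      intro a ha b hb hab
      exact (Pool.Agent.Y16.TF.Stretched.en_le (hF.2 a ha b hb hab) (hF.1 a ha) z hz lam hlam).2
    refine ⟨fun l _ => ⟨?_, ?_⟩, hanti, ?_⟩
    · exact Pool.Agent.Helper557.TFP.en_nonempty z (R l) lam hlam
    · exact Pool.Agent.Helper557.TFP.en_bdd z hz (R l) lam
    · intro l _ hacc d hd
      have := hd.nonpos_of_antitoneOn hacc hanti
      linarith
  · intro R hR
    refine ⟨⟨?_, ?_⟩, ?_, ?_⟩
    · intro l hl i j hij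
      have hl0 : l ≠ 0 := ne_of_gt hl
      apply hR
      have hij' : dil l (R i) = dil l (R j) := hij
      have h0 := congrArg (fun v : E3 => v 0) hij'
      have h1 := congrArg (fun v : E3 => v 1) hij'
      have h2 := congrArg (fun v : E3 => v 2) hij'
      simp [dil] at h0 h1 h2
      ext b
      fin_cases b
      · rcases h0 with h0 | h0
        · exact h0
        · exact absurd h0 hl0
      · exact h1
      · exact h2
    · intro l hl m _ hlm
      exact Relation.ReflTransGen.single (dil_step R hl hlm)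
    · intro n c hn hc
      refine ⟨?_, ?_⟩
      · intro l hl
        exact Pool.Agent.H71R3.TF1.sep_inj n hn c l hl R hR hc
      · intro l hl m _ hlm
        exact Relation.ReflTransGen.single (sep_step n hn c R hc hl hlm)
    · intro I T hT hTm
      refine ⟨fun l hl => (hT l hl).comp hR, ?_⟩
      intro l hl m hm hlm
      -- `T m ∘ (T l)⁻¹`
      have hbij : Function.Bijective (T l) :=
        ⟨hT l hl, LinearMap.injective_iff_surjective.1 (hT l hl)⟩
      set S : E3 ≃ₗ[ℝ] E3 := LinearEquiv.ofBijective (T l) hbij with hS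
      have h1 : ∀ x, ‖x‖ ≤ ‖((T m) ∘ₗ (S.symm : E3 →ₗ[ℝ] E3)) x‖ := by
        intro x
        have h2 := hTm l hl m hm hlm (S.symm x)
        have h3 : T l (S.symm x) = x := S.apply_symm_apply x
        rw [h3] at h2
        exact h2
      have h4 := Pool.Agent.Y16.TF.stretched_linear (fun i => T l (R i))
        ((T m) ∘ₗ (S.symm : E3 →ₗ[ℝ] E3)) h1
      have h5 : (fun i => ((T m) ∘ₗ (S.symm : E3 →ₗ[ℝ] E3)) (T l (R i))) =
          fun i => T m (R i) := by
        funext i
        have h6 : S.symm (T l (R i)) = R i := S.symm_apply_apply (R i)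
        show T m (S.symm (T l (R i))) = _
        rw [h6]
      rw [h5] at h4
      exact h4

end Pool.Agent.Results.MP_0ec64f_mp.Stretchings
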